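import Pool.Agent.Y727.CS.Stm

/-!
# Project CS (MP_9fb148_an), job CS/SGN: products of Clifford generators (helper864)
-/

set_option autoImplicit false

namespace Pool.Agent.Z864.CS

open Pool.Agent.Y727.CS

section ring

variable {A : Type} [Ring A]

/-- moving an element through a product -/
lemma move {n : ℕ} (h : Fin n → A) (a : A) (ε : Fin n → ℤ)
    (hh : ∀ k, h k * a = ε k • (a * h k)) :
    (List.ofFn h).prod * a = (∏ k, ε k) • (a * (List.ofFn h).prod) := by
  induction n with
  | zero => simp
  | succ n ih =>
    rw [List.ofFn_succ, List.prod_cons, Fin.prod_univ_succ, mul_assoc,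
      ih (fun k => h k.succ) (fun k => ε k.succ) (fun k => hh k.succ), mul_smul_comm,
      ← mul_assoc, hh 0, smul_mul_assoc, smul_smul, mul_comm (ε 0), mul_assoc a]

/-- an adjacent transposition changes the sign -/
lemma prod_swap {n : ℕ} (h : Fin (n + 1) → A) (hh : ∀ j k, j ≠ k → h j * h k = -(h k * h j))
    (i : Fin n) : (List.ofFn fun k => h (Equiv.swap i.castSucc i.succ k)).prod =
      -(List.ofFn h).prod := by
  induction n with
  | zero => exact i.elim0
  | succ n ih =>
    refine Fin.cases ?_ (fun i' => ?_) i
    · rw [List.ofFn_succ, List.ofFn_succ, List.ofFn_succ (f := h), List.ofFn_succ]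
      simp only [List.prod_cons]
      have e0 : Equiv.swap (0 : Fin (n + 1)).castSucc (0 : Fin (n + 1)).succ 0 =
          (1 : Fin (n + 2)) := by
        simp
      have e1 : Equiv.swap (0 : Fin (n + 1)).castSucc (0 : Fin (n + 1)).succ
          (Fin.succ (0 : Fin (n + 1))) = (0 : Fin (n + 2)) := by
        simp
      have e2 : ∀ k : Fin n, Equiv.swap (0 : Fin (n + 1)).castSucc (0 : Fin (n + 1)).succ
          k.succ.succ = k.succ.succ := by
        intro k
        apply Equiv.swap_apply_of_ne_of_ne
        · exact Fin.succ_ne_zero _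
        · intro h
          exact Fin.succ_ne_zero _ (Fin.succ_injective _ h)
      rw [e0, e1]
      simp only [e2]
      rw [← mul_assoc, ← mul_assoc, hh 1 0 (by simp), neg_mul]
      rfl
    · rw [List.ofFn_succ, List.ofFn_succ (f := h)]
      simp only [List.prod_cons]
      have e0 : Equiv.swap (Fin.castSucc i'.succ) (Fin.succ i'.succ) 0 = (0 : Fin (n + 2)) := by
        apply Equiv.swap_apply_of_ne_of_ne
        · intro h
          have := congrArg Fin.val h
          simp at this
        · exact (Fin.succ_ne_zero _).symm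
      have e1 : ∀ k : Fin (n + 1), Equiv.swap (Fin.castSucc i'.succ) (Fin.succ i'.succ) k.succ =
          (Equiv.swap i'.castSucc i'.succ k).succ := by
        intro k
        have := (Fin.succ_injective (n + 1)).swap_apply i'.castSucc i'.succ k
        rw [← this]
        rfl
      rw [e0]
      simp only [e1]
      rw [ih (fun k => h k.succ) (fun j k hjk => hh _ _ (fun h => hjk (Fin.succ_injective _ h))) i',
        mul_neg]

/-- reordering -/
lemma prod_perm {n : ℕ} (s : Equiv.Perm (Fin n)) : ∀ (h : Fin n → A),
    (∀ j k, j ≠ k → h j * h k = -(h k * h j)) →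
    (List.ofFn fun k => h (s k)).prod = (Equiv.Perm.sign s : ℤ) • (List.ofFn h).prod := by
  cases n with
  | zero =>
    intro h _
    have : s = 1 := Subsingleton.elim _ _
    subst this
    simp
  | succ n =>
    have hs : s ∈ Submonoid.closure (Set.range fun i : Fin n => Equiv.swap i.castSucc i.succ) := by
      rw [Equiv.Perm.mclosure_swap_castSucc_succ]
      exact Submonoid.mem_top _
    induction hs using Submonoid.closure_induction with
    | mem x hx =>
      obtain ⟨i, rfl⟩ := hx
      intro h hh
      rw [prod_swap h hh i, Equiv.Perm.sign_swap (by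
        intro h
        have := congrArg Fin.val h
        simp at this)]
      simp
    | one =>
      intro h _
      simp
    | mul x y _ _ hx hy =>
      intro h hh
      have e := hy (fun k => h (x k)) (fun j k hjk => hh _ _ (fun h => hjk (x.injective h)))
      have e2 := hx h hh
      rw [e2] at e
      simp only [Equiv.Perm.coe_mul, Function.comp_apply]
      rw [e, smul_smul, map_mul, mul_comm]
      rfl

lemma sq_pm {n : ℕ} : ∀ (h : Fin n → A), (∀ j, h j * h j = 1) →
    (∀ j k, j ≠ k → h j * h k = -(h k * h j)) →
    (List.ofFn h).prod * (List.ofFn h).prod = 1 ∨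
      (List.ofFn h).prod * (List.ofFn h).prod = -1 := by
  induction n with
  | zero => intro h _ _; simp
  | succ n ih =>
    intro h h1 h2
    have h3 := ih (fun k => h k.succ) (fun k => h1 _)
      (fun j k hjk => h2 _ _ (fun h => hjk (Fin.succ_injective _ h)))
    have h4 := move (fun k : Fin n => h k.succ) (h 0) (fun _ => -1) (fun k => by
      rw [h2 _ _ (Fin.succ_ne_zero k)]
      simp)
    rw [List.ofFn_succ, List.prod_cons]
    obtain ⟨G, hG⟩ : ∃ G, G = (List.ofFn fun k : Fin n => h k.succ).prod := ⟨_, rfl⟩
    rw [← hG] at h3 h4 ⊢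
    have h5 : h 0 * G * (h 0 * G) = (∏ _k : Fin n, (-1 : ℤ)) • (G * G) := by
      rw [mul_assoc (h 0), ← mul_assoc G, h4, smul_mul_assoc, mul_smul_comm, mul_assoc (h 0) G,
        ← mul_assoc (h 0) (h 0), h1, one_mul]
    rw [h5, Finset.prod_const]
    rcases neg_one_pow_eq_or ℤ (Finset.univ : Finset (Fin n)).card with e | e
    · rw [e, one_smul]; exact h3
    · rw [e, neg_smul, one_smul]
      rcases h3 with h3 | h3
      · rw [h3]; exact Or.inr rfl
      · rw [h3, neg_neg]; exact Or.inl rfl

end ring

theorem t_sgn : S_sgn := by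
  intro ι _ _ d g hg s
  rw [prod_perm s g hg.2]
  unfold sg Gam
  rw [Int.cast_smul_eq_zsmul]

theorem t_ant : S_ant := by
  intro ι _ _ d g hd hg j
  unfold Gam
  have h := move g (g j) (fun k => if k = j then 1 else -1) (fun k => by
    by_cases hk : k = j
    · rw [if_pos hk, hk, one_smul]
    · rw [if_neg hk, neg_smul, one_smul]
      exact hg.2 _ _ hk)
  have h2 : (∏ k : Fin d, (if k = j then (1 : ℤ) else -1)) = -1 := by
    have e1 : (∏ k : Fin d, (if k = j then (1 : ℤ) else -1)) *
        (∏ k : Fin d, (if k = j then (-1 : ℤ) else 1)) = 1 := by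
      rw [← Finset.prod_mul_distrib]
      have e2 : ∀ k : Fin d, (if k = j then (1 : ℤ) else -1) * (if k = j then (-1 : ℤ) else 1) =
          -1 := by
        intro k
        by_cases hk : k = j
        · simp [hk]
        · simp [hk]
      simp only [e2]
      rw [Finset.prod_const, Finset.card_univ, Fintype.card_fin]
      exact hd.neg_one_pow
    rw [Finset.prod_ite_eq' Finset.univ j (fun _ => (-1 : ℤ)), if_pos (Finset.mem_univ _)] at e1
    linarith
  rw [h, h2, neg_smul, one_smul]

theorem t_sq : S_sq := by
  intro ι _ _ d g hg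
  exact sq_pm g hg.1 hg.2

end Pool.Agent.Z864.CS
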